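import Pool.Agent.Helper12.NK.St

/-! Project NK (MP_d63854), module FDL (helper80). -/

set_option autoImplicit false

namespace Pool.Agent.Helper80.NK

open Pool.Agent.Helper12.NK
open Pool.Agent.Helper51.AJ (IsMinor Planar Apex ExMinor Con Tch)
open Pool.Agent.Helper35.PM (Rot)

theorem hFDL : StKCA → StKUR → StRDL → StFAC → StFCY → StPER → StFDL := by
  intro hKCA hKUR hRDL hFAC hFCY hPER V _ G U w hK hK' hP F' hF'
  obtain ⟨R⟩ : RPlanar (rst G U) := hKUR V G U hK hP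
  have hK2 : Kc 2 G U := (hKCA V G U).1 2 hK
  have hface : ∀ d : (rst G U).Dart, IsFace G U (fac R d) := by
    intro d
    obtain ⟨⟨m, c, hc, hr, _⟩, _⟩ := hFCY V G U R hK2 d
    exact ⟨m, c, hPER V G U R hK m c hc, hr⟩
  obtain ⟨R', hR'⟩ := hRDL V G U w R
  obtain ⟨d', hd'⟩ := hFAC V G (U \ {w}) R' hK' F' hF'
  have hadj : (rst G U).Adj d'.fst d'.snd := by
    have h := d'.adj
    exact ⟨h.1, h.2.1.1, h.2.2.1⟩
  rcases hR' d' ⟨d'.toProd, hadj⟩ rfl with ⟨_, h⟩ | h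
  · left
    rw [← hd', h]
    exact hface _
  · right
    intro x hx
    rw [← hd'] at hx
    obtain ⟨e, he1, he2⟩ := h x hx
    exact ⟨fac R e, hface e, he1, he2⟩

end Pool.Agent.Helper80.NK
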